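import Pool.Agent.Lib.GRW.Defs

open MeasureTheory
open scoped ENNReal

namespace Pool.Agent.Lib.GRW

variable {V : Type} (G : SimpleGraph V) [G.LocallyFinite]

theorem freshNbrs_congr {x y : ℕ → V} {t : ℕ} (h : ∀ s ≤ t, x s = y s) :
    freshNbrs G x t = freshNbrs G y t := by
  unfold freshNbrs
  rw [h t le_rfl]
  ext u
  simp only [Finset.mem_filter]
  refine and_congr_right fun _ => ?_
  constructor
  · intro H s hs
    rw [← h s hs.le, ← h (s + 1) hs]
    exact H s hs
  · intro H s hs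
    rw [h s hs.le, h (s + 1) hs]
    exact H s hs

theorem stepProb_congr {x y : ℕ → V} {t : ℕ} (h : ∀ s ≤ t, x s = y s) (w : V) :
    stepProb G x t w = stepProb G y t w := by
  unfold stepProb
  rw [freshNbrs_congr G h, h t le_rfl]

theorem mem_freshNbrs {x : ℕ → V} {t : ℕ} {u : V} :
    u ∈ freshNbrs G x t ↔ G.Adj (x t) u ∧ ∀ s < t, s(x s, x (s + 1)) ≠ s(x t, u) := by
  unfold freshNbrs
  simp

open Classical in
/-- The set of possible next positions. -/
noncomputable def nextSet (x : ℕ → V) (t : ℕ) : Finset V :=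
  if (freshNbrs G x t).Nonempty then freshNbrs G x t else G.neighborFinset (x t)

open Classical in
theorem stepProb_eq (x : ℕ → V) (t : ℕ) (w : V) :
    stepProb G x t w = if w ∈ nextSet G x t then ((nextSet G x t).card : ℝ≥0∞)⁻¹ else 0 := by
  unfold stepProb nextSet
  split_ifs with h1 h2 h3 h4 h5 <;> simp_all

theorem nextSet_congr {x y : ℕ → V} {t : ℕ} (h : ∀ s ≤ t, x s = y s) :
    nextSet G x t = nextSet G y t := by
  unfold nextSet
  rw [freshNbrs_congr G h, h t le_rfl]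

theorem adj_of_mem_nextSet {x : ℕ → V} {t : ℕ} {w : V} (h : w ∈ nextSet G x t) :
    G.Adj (x t) w := by
  unfold nextSet at h
  split_ifs at h with h1
  · exact ((mem_freshNbrs G).1 h).1
  · simpa using h

theorem stepProb_ne_zero_iff {x : ℕ → V} {t : ℕ} {w : V} :
    stepProb G x t w ≠ 0 ↔ w ∈ nextSet G x t := by
  rw [stepProb_eq]
  split_ifs with h
  · simp [h]
  · simp [h]

theorem nextSet_nonempty (hG : ∀ v, ∃ w, G.Adj v w) (x : ℕ → V) (t : ℕ) :
    (nextSet G x t).Nonempty := by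
  unfold nextSet
  split_ifs with h
  · exact h
  · obtain ⟨w, hw⟩ := hG (x t)
    exact ⟨w, by simpa using hw⟩

theorem tsum_stepProb_mul (x : ℕ → V) (t : ℕ) (F : V → ℝ≥0∞) :
    ∑' w, stepProb G x t w * F w =
      ((nextSet G x t).card : ℝ≥0∞)⁻¹ * ∑ w ∈ nextSet G x t, F w := by
  rw [tsum_eq_sum (s := nextSet G x t), Finset.mul_sum]
  · apply Finset.sum_congr rfl
    intro w hw
    rw [stepProb_eq, if_pos hw]
  · intro w hw
    rw [stepProb_eq, if_neg hw, zero_mul]

theorem tsum_stepProb (hG : ∀ v, ∃ w, G.Adj v w) (x : ℕ → V) (t : ℕ) :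
    ∑' w, stepProb G x t w = 1 := by
  have h := tsum_stepProb_mul G x t (fun _ => 1)
  simp only [mul_one, Finset.sum_const, nsmul_eq_mul] at h
  rw [h]
  have hne : ((nextSet G x t).card : ℝ≥0∞) ≠ 0 := by
    have := (nextSet_nonempty G hG x t).card_pos
    exact_mod_cast this.ne'
  exact ENNReal.inv_mul_cancel hne (ENNReal.natCast_ne_top _)

/-- Histories of positive probability. -/
def Valid (v₀ : V) (t : ℕ) (x : ℕ → V) : Prop :=
  x 0 = v₀ ∧ ∀ s < t, x (s + 1) ∈ nextSet G x s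

theorem Valid.mono {G : SimpleGraph V} [G.LocallyFinite] {v₀ : V} {t s : ℕ} {x : ℕ → V}
    (h : Valid G v₀ t x) (hs : s ≤ t) : Valid G v₀ s x :=
  ⟨h.1, fun r hr => h.2 r (lt_of_lt_of_le hr hs)⟩

theorem Valid.congr {G : SimpleGraph V} [G.LocallyFinite] {v₀ : V} {t : ℕ} {x y : ℕ → V}
    (h : Valid G v₀ t x) (hxy : ∀ s ≤ t, x s = y s) : Valid G v₀ t y := by
  refine ⟨by rw [← hxy 0 (Nat.zero_le _)]; exact h.1, fun s hs => ?_⟩
  rw [← hxy (s + 1) hs, ← nextSet_congr G (fun r hr => hxy r (hr.trans hs.le))]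
  exact h.2 s hs

open Classical in
theorem Valid.update {G : SimpleGraph V} [G.LocallyFinite] {v₀ : V} {t : ℕ} {x : ℕ → V}
    (h : Valid G v₀ t x) {w : V} (hw : w ∈ nextSet G x t) :
    Valid G v₀ (t + 1) (Function.update x (t + 1) w) := by
  have hxy : ∀ s ≤ t, x s = Function.update x (t + 1) w s := fun s hs => by
    rw [Function.update_of_ne (by omega)]
  have h' := h.congr hxy
  refine ⟨h'.1, fun s hs => ?_⟩
  rcases Nat.lt_succ_iff_lt_or_eq.1 hs with hs | rfl
  · exact h'.2 s hs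
  · rw [Function.update_self, ← nextSet_congr G hxy]
    exact hw

end Pool.Agent.Lib.GRW
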