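import Mathlib

open MeasureTheory
open scoped ENNReal

namespace Pool.Agent.Lib.GRW

open Classical in
/-- Given a trajectory `x` up to time `t`: the neighbours `u` of the current position `x t`
such that the edge `{x t, u}` has not been crossed, in either direction, up to time `t`. -/
noncomputable def freshNbrs {V : Type} (G : SimpleGraph V) [G.LocallyFinite]
    (x : ℕ → V) (t : ℕ) : Finset V :=
  (G.neighborFinset (x t)).filter fun u => ∀ s < t, s(x s, x (s + 1)) ≠ s(x t, u)

open Classical in
/-- Probability that the greedy random walk with history `x 0, ..., x t` moves to `w`. -/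
noncomputable def stepProb {V : Type} (G : SimpleGraph V) [G.LocallyFinite]
    (x : ℕ → V) (t : ℕ) (w : V) : ℝ≥0∞ :=
  if (freshNbrs G x t).Nonempty then
    (if w ∈ freshNbrs G x t then ((freshNbrs G x t).card : ℝ≥0∞)⁻¹ else 0)
  else (if G.Adj (x t) w then (G.degree (x t) : ℝ≥0∞)⁻¹ else 0)

/-- `X` is a greedy random walk with the uniform rule on `G` started at `v₀`, on the
probability space `(Ω, P)`. -/
def IsGRW {V : Type} (G : SimpleGraph V) [G.LocallyFinite] (v₀ : V)
    {Ω : Type} [MeasurableSpace Ω] (P : Measure Ω) (X : ℕ → Ω → V) : Prop :=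
  IsProbabilityMeasure P ∧ (∀ t v, MeasurableSet {ω | X t ω = v}) ∧
    P {ω | X 0 ω = v₀} = 1 ∧
    ∀ (t : ℕ) (x : ℕ → V), P {ω | ∀ s ≤ t + 1, X s ω = x s} =
      P {ω | ∀ s ≤ t, X s ω = x s} * stepProb G x t (x (t + 1))

end Pool.Agent.Lib.GRW
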