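import Pool.Agent.Lib.GRW.Prob

open MeasureTheory ProbabilityTheory Finset Preorder
open scoped ENNReal

namespace Pool.Agent.Lib.GRW

variable {V : Type} (G : SimpleGraph V) [G.LocallyFinite]

/-- Extension of a history indexed by `Iic n`. -/
def extI (n : ℕ) (h : Π _ : Iic n, V) : ℕ → V := fun s => h ⟨min s n, mem_Iic.2 (min_le_right _ _)⟩

theorem exists_isGRW [Countable V] (hG : ∀ v, ∃ w, G.Adj v w) (v₀ : V) :
    ∃ (Ω : Type) (_ : MeasurableSpace Ω) (P : Measure Ω) (X : ℕ → Ω → V), IsGRW G v₀ P X := by
  letI : MeasurableSpace V := ⊤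
  haveI : MeasurableSingletonClass V := ⟨fun _ => trivial⟩
  let p : (n : ℕ) → (Π _ : Iic n, V) → PMF V := fun n h =>
    ⟨stepProb G (extI n h) n, by
      have := tsum_stepProb G hG (extI n h) n
      exact this ▸ ENNReal.summable.hasSum⟩
  let κ : (n : ℕ) → Kernel (Π _ : Iic n, V) V := fun n =>
    ⟨fun h => (p n h).toMeasure, measurable_of_countable _⟩
  haveI : ∀ n, IsMarkovKernel (κ n) := fun n => ⟨fun h => PMF.toMeasure.isProbabilityMeasure _⟩
  let P : Measure (ℕ → V) := Kernel.trajMeasure (X := fun _ => V) (Measure.dirac v₀) κ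
  have hP : IsProbabilityMeasure P := inferInstance
  refine ⟨ℕ → V, inferInstance, P, fun t ω => ω t, hP, fun t v => ?_, ?_, fun t x => ?_⟩
  · exact (measurable_pi_apply (X := fun _ : ℕ => V) t) (measurableSet_singleton v)
  · have h1 : P.map (frestrictLe 0) =
        (Measure.dirac v₀).map (MeasurableEquiv.piUnique (fun _ : Iic 0 => V)).symm := by
      simp only [P, Kernel.trajMeasure]
      rw [Measure.map_comp _ _ (measurable_frestrictLe 0), Kernel.traj_map_frestrictLe,
        Kernel.partialTraj_self, Measure.id_comp]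
    have h2 : {ω : ℕ → V | ω 0 = v₀} = frestrictLe 0 ⁻¹' {h | h ⟨0, mem_Iic.2 le_rfl⟩ = v₀} := rfl
    rw [h2, ← Measure.map_apply (measurable_frestrictLe 0) (Set.to_countable _).measurableSet, h1,
      Measure.map_dirac' (MeasurableEquiv.measurable _), Measure.dirac_apply_of_mem]
    rfl
  · have key := Kernel.map_frestrictLe_trajMeasure_compProd_eq_map_trajMeasure
      (X := fun _ => V) (μ₀ := Measure.dirac v₀) (κ := κ) (a := t)
    have h1 : {ω : ℕ → V | ∀ s ≤ t + 1, ω s = x s} =
        (fun ω : ℕ → V => (frestrictLe t ω, ω (t + 1))) ⁻¹'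
          ({frestrictLe t x} ×ˢ {x (t + 1)}) := by
      ext ω
      simp only [Set.mem_ofPred_eq, Set.mem_preimage, Set.mem_prod, Set.mem_singleton_iff]
      constructor
      · intro h
        exact ⟨funext fun i => h i ((mem_Iic.1 i.2).trans (Nat.le_succ _)), h _ le_rfl⟩
      · rintro ⟨h, h'⟩ s hs
        rcases Nat.lt_or_eq_of_le hs with hs | rfl
        · exact congrFun h ⟨s, mem_Iic.2 (by omega)⟩
        · exact h'
    have h2 : {ω : ℕ → V | ∀ s ≤ t, ω s = x s} =
        frestrictLe (π := fun _ : ℕ => V) t ⁻¹' {frestrictLe (π := fun _ : ℕ => V) t x} := by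
      ext ω
      simp only [Set.mem_ofPred_eq, Set.mem_preimage, Set.mem_singleton_iff]
      constructor
      · intro h
        exact funext fun i => h i (mem_Iic.1 i.2)
      · intro h s hs
        exact congrFun h ⟨s, mem_Iic.2 hs⟩
    have hm : MeasurableSet (({frestrictLe t x} : Set (Π _ : Iic t, V)) ×ˢ ({x (t + 1)} : Set V)) :=
      (measurableSet_singleton _).prod (measurableSet_singleton _)
    rw [h1, h2, ← Measure.map_apply (by fun_prop) hm,
      ← Measure.map_apply (measurable_frestrictLe t) (measurableSet_singleton _)]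
    show (Kernel.trajMeasure (X := fun _ => V) (Measure.dirac v₀) κ).map _ _ = _
    rw [← key, Measure.compProd_apply_prod (measurableSet_singleton _) (measurableSet_singleton _),
      lintegral_singleton, mul_comm]
    congr 1
    show (p t (frestrictLe t x)).toMeasure {x (t + 1)} = _
    rw [PMF.toMeasure_apply_singleton _ _ (measurableSet_singleton _)]
    show stepProb G (extI t (frestrictLe t x)) t (x (t + 1)) = _
    refine stepProb_congr G (fun s hs => ?_) _
    simp [extI, min_eq_left hs]

end Pool.Agent.Lib.GRW
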