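import Pool.Agent.Lib.GRW.Prob

open MeasureTheory
open scoped ENNReal

namespace Pool.Agent.Lib.GRW

variable {V : Type} {G : SimpleGraph V} [G.LocallyFinite] {v₀ : V}

theorem IsGRW.cyl_ne_zero {Ω : Type} [MeasurableSpace Ω] {P : Measure Ω} {X : ℕ → Ω → V}
    (h : IsGRW G v₀ P X) {t : ℕ} {x : ℕ → V} (hx : Valid G v₀ t x) :
    P (cyl X t x) ≠ 0 := by
  induction t with
  | zero =>
    have : cyl X 0 x = {ω | X 0 ω = v₀} := by
      ext ω; simp [cyl, hx.1]
    rw [this, h.2.2.1]; exact one_ne_zero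
  | succ t ih =>
    rw [h.cyl_succ]
    exact mul_ne_zero (ih (hx.mono (Nat.le_succ _)))
      ((stepProb_ne_zero_iff G).2 (hx.2 t (Nat.lt_succ_self _)))

open Classical in
/-- Neighbours of `v` along edges crossed up to time `t`. -/
noncomputable def used (G : SimpleGraph V) [G.LocallyFinite] (x : ℕ → V) (t : ℕ) (v : V) :
    Finset V :=
  (G.neighborFinset v).filter fun u => ∃ s < t, s(x s, x (s + 1)) = s(v, u)

theorem mem_used {x : ℕ → V} {t : ℕ} {v u : V} :
    u ∈ used G x t v ↔ G.Adj v u ∧ ∃ s < t, s(x s, x (s + 1)) = s(v, u) := by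
  unfold used; simp only [Finset.mem_filter, SimpleGraph.mem_neighborFinset]

theorem card_used_add_fresh (x : ℕ → V) (t : ℕ) :
    (used G x t (x t)).card + (freshNbrs G x t).card = G.degree (x t) := by
  classical
  rw [← SimpleGraph.card_neighborFinset_eq_degree,
    ← Finset.card_union_of_disjoint]
  · congr 1
    ext u
    simp only [Finset.mem_union, mem_used, mem_freshNbrs, SimpleGraph.mem_neighborFinset]
    constructor
    · rintro (h | h) <;> exact h.1
    · intro h
      by_cases h' : ∃ s < t, s(x s, x (s + 1)) = s(x t, u)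
      · exact Or.inl ⟨h, h'⟩
      · exact Or.inr ⟨h, fun s hs e => h' ⟨s, hs, e⟩⟩
  · rw [Finset.disjoint_left]
    intro u h1 h2
    obtain ⟨s, hs, e⟩ := (mem_used.1 h1).2
    exact ((mem_freshNbrs G).1 h2).2 s hs e

theorem mem_used_succ {x : ℕ → V} {t : ℕ} {v u : V} :
    u ∈ used G x (t + 1) v ↔
      u ∈ used G x t v ∨ (G.Adj v u ∧ s(x t, x (t + 1)) = s(v, u)) := by
  simp only [mem_used]
  constructor
  · rintro ⟨h, s, hs, e⟩
    rcases Nat.lt_succ_iff_lt_or_eq.1 hs with hs | rfl
    · exact Or.inl ⟨h, s, hs, e⟩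
    · exact Or.inr ⟨h, e⟩
  · rintro (⟨h, s, hs, e⟩ | ⟨h, e⟩)
    · exact ⟨h, s, hs.trans (Nat.lt_succ_self _), e⟩
    · exact ⟨h, t, Nat.lt_succ_self _, e⟩

open Classical in
theorem card_used_succ_fresh {x : ℕ → V} {t : ℕ} (hf : x (t + 1) ∈ freshNbrs G x t) (v : V) :
    (used G x (t + 1) v).card = (used G x t v).card +
      ((if v = x t then 1 else 0) + if v = x (t + 1) then 1 else 0) := by
  obtain ⟨ha, hn⟩ := (mem_freshNbrs G).1 hf
  by_cases h1 : v = x t
  · have h2 : v ≠ x (t + 1) := h1 ▸ ha.ne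
    rw [if_pos h1, if_neg h2]
    have : used G x (t + 1) v = insert (x (t + 1)) (used G x t v) := by
      ext u
      rw [mem_used_succ, Finset.mem_insert, or_comm]
      refine or_congr_left ⟨fun h => ?_, fun h => ?_⟩
      · rw [h1] at h
        exact (Sym2.congr_right.1 h.2).symm
      · rw [h, h1]; exact ⟨ha, rfl⟩
    rw [this, Finset.card_insert_of_notMem]
    intro h
    obtain ⟨s, hs, e⟩ := (mem_used.1 h).2
    exact hn s hs (h1 ▸ e)
  · by_cases h2 : v = x (t + 1)
    · rw [if_neg h1, if_pos h2]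
      have : used G x (t + 1) v = insert (x t) (used G x t v) := by
        ext u
        rw [mem_used_succ, Finset.mem_insert, or_comm]
        refine or_congr_left ⟨fun h => ?_, fun h => ?_⟩
        · rw [h2, Sym2.eq_swap] at h
          exact (Sym2.congr_right.1 h.2).symm
        · rw [h, h2]; exact ⟨ha.symm, Sym2.eq_swap⟩
      rw [this, Finset.card_insert_of_notMem]
      intro h
      obtain ⟨s, hs, e⟩ := (mem_used.1 h).2
      exact hn s hs (by rw [e, h2, Sym2.eq_swap])
    · rw [if_neg h1, if_neg h2]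
      congr 1
      ext u
      rw [mem_used_succ, or_iff_left]
      rintro ⟨-, e⟩
      rcases Sym2.eq_iff.1 e with e | e
      · exact h1 e.1.symm
      · exact h2 e.2.symm

open Classical in
theorem card_used_trail {x : ℕ → V} {t : ℕ} (hf : ∀ s < t, x (s + 1) ∈ freshNbrs G x s) (v : V) :
    ((used G x t v).card + ((if v = x 0 then 1 else 0) + if v = x t then 1 else 0)) % 2 = 0 := by
  induction t with
  | zero =>
    have : used G x 0 v = ∅ := by
      ext u; simp [mem_used]
    rw [this]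
    split_ifs <;> simp
  | succ t ih =>
    have := ih fun s hs => hf s (hs.trans (Nat.lt_succ_self _))
    rw [card_used_succ_fresh (hf t (Nat.lt_succ_self _))]
    split_ifs at this ⊢ <;> omega

theorem fresh_nonempty_of_trail {x : ℕ → V} {t : ℕ}
    (hf : ∀ s < t, x (s + 1) ∈ freshNbrs G x s) (hev : Even (G.degree (x t))) (hne : x t ≠ x 0) :
    (freshNbrs G x t).Nonempty := by
  have h1 := card_used_trail hf (x t)
  have h2 := card_used_add_fresh (G := G) x t
  rw [if_neg hne, if_pos rfl] at h1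
  rw [← Finset.card_pos]
  obtain ⟨k, hk⟩ := hev
  omega

theorem mem_nextSet_of_fresh {x : ℕ → V} {t : ℕ} {w : V} (h : w ∈ freshNbrs G x t) :
    w ∈ nextSet G x t := by
  unfold nextSet
  rw [if_pos ⟨w, h⟩]; exact h

theorem fresh_of_mem_nextSet {x : ℕ → V} {t : ℕ} {w : V} (hne : (freshNbrs G x t).Nonempty)
    (h : w ∈ nextSet G x t) : w ∈ freshNbrs G x t := by
  unfold nextSet at h
  rwa [if_pos hne] at h

end Pool.Agent.Lib.GRW
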