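import Pool.Agent.Lib.GRW.Basic

open MeasureTheory
open scoped ENNReal

namespace Pool.Agent.Lib.GRW

variable {V : Type} {G : SimpleGraph V} [G.LocallyFinite] {v₀ : V}
  {Ω : Type} [MeasurableSpace Ω] {P : Measure Ω} {X : ℕ → Ω → V}

/-- Cylinder event. -/
def cyl (X : ℕ → Ω → V) (t : ℕ) (x : ℕ → V) : Set Ω := {ω | ∀ s ≤ t, X s ω = x s}

theorem IsGRW.measurableSet_cyl (h : IsGRW G v₀ P X) (t : ℕ) (x : ℕ → V) :
    MeasurableSet (cyl X t x) := by
  have : cyl X t x = ⋂ s, ⋂ (_ : s ≤ t), {ω | X s ω = x s} := by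
    ext ω; simp [cyl]
  rw [this]
  exact MeasurableSet.iInter fun s => MeasurableSet.iInter fun _ => h.2.1 s _

theorem IsGRW.cyl_succ (h : IsGRW G v₀ P X) (t : ℕ) (x : ℕ → V) :
    P (cyl X (t + 1) x) = P (cyl X t x) * stepProb G x t (x (t + 1)) := h.2.2.2 t x

theorem IsGRW.cyl_eq_zero (h : IsGRW G v₀ P X) {t : ℕ} {x : ℕ → V} (hx : ¬ Valid G v₀ t x) :
    P (cyl X t x) = 0 := by
  haveI := h.1
  induction t with
  | zero =>
    have hne : x 0 ≠ v₀ := fun e => hx ⟨e, fun s hs => absurd hs (Nat.not_lt_zero _)⟩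
    have h1 : P {ω | X 0 ω = v₀}ᶜ = 0 := by
      rw [prob_compl_eq_zero_iff (h.2.1 0 v₀)]; exact h.2.2.1
    refine measure_mono_null (fun ω hω => ?_) h1
    intro h2
    exact hne ((hω 0 le_rfl).symm.trans h2)
  | succ t ih =>
    rw [h.cyl_succ]
    by_cases hv : Valid G v₀ t x
    · have : x (t + 1) ∉ nextSet G x t := fun hm => hx ⟨hv.1, fun s hs => by
        rcases Nat.lt_succ_iff_lt_or_eq.1 hs with hs | rfl
        · exact hv.2 s hs
        · exact hm⟩
      have h0 : stepProb G x t (x (t + 1)) = 0 := by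
        by_contra h0; exact this ((stepProb_ne_zero_iff G).1 h0)
      rw [h0, mul_zero]
    · rw [ih hv, zero_mul]

/-- Extension of a finite history to a trajectory, constant after time `t`. -/
def ext (t : ℕ) (a : Fin (t + 1) → V) : ℕ → V := fun s => a ⟨min s t, by omega⟩

theorem iUnion_cyl (X : ℕ → Ω → V) (t : ℕ) :
    ⋃ a : Fin (t + 1) → V, cyl X t (ext t a) = Set.univ := by
  ext ω
  simp only [Set.mem_iUnion, Set.mem_univ, iff_true]
  refine ⟨fun i => X i ω, fun s hs => ?_⟩
  simp [ext, min_eq_left hs]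

theorem pairwise_cyl (X : ℕ → Ω → V) (t : ℕ) :
    Pairwise (Function.onFun Disjoint fun a : Fin (t + 1) → V => cyl X t (ext t a)) := by
  intro a b hab
  rw [Function.onFun, Set.disjoint_left]
  intro ω ha hb
  apply hab
  funext i
  have hi : (i : ℕ) ≤ t := Nat.lt_succ_iff.1 i.2
  have h1 := ha i hi
  have h2 := hb i hi
  simp only [ext, min_eq_left hi] at h1 h2
  exact h1.symm.trans h2

theorem IsGRW.lintegral_eq_tsum [Countable V] (h : IsGRW G v₀ P X) (t : ℕ) (f : Ω → ℝ≥0∞) :
    ∫⁻ ω, f ω ∂P = ∑' a : Fin (t + 1) → V, ∫⁻ ω in cyl X t (ext t a), f ω ∂P := by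
  rw [← lintegral_iUnion (fun a => h.measurableSet_cyl t _) (pairwise_cyl X t), iUnion_cyl,
    Measure.restrict_univ]

theorem IsGRW.ae_valid [Countable V] (h : IsGRW G v₀ P X) :
    ∀ᵐ ω ∂P, ∀ t, Valid G v₀ t (fun s => X s ω) := by
  rw [ae_all_iff]
  intro t
  rw [ae_iff]
  have : {ω | ¬ Valid G v₀ t fun s => X s ω} ⊆
      ⋃ a : {a : Fin (t + 1) → V // ¬ Valid G v₀ t (ext t a)}, cyl X t (ext t a.1) := by
    intro ω hω
    have hmem : ω ∈ cyl X t (ext t fun i => X i ω) := fun s hs => by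
      simp [ext, min_eq_left hs]
    refine Set.mem_iUnion.2 ⟨⟨fun i => X i ω, fun hv => hω (hv.congr fun s hs => ?_)⟩, hmem⟩
    exact (hmem s hs).symm
  refine measure_mono_null this ?_
  exact measure_iUnion_null fun a => h.cyl_eq_zero a.2

open Classical in
theorem IsGRW.setLIntegral_cyl_succ [Countable V] (h : IsGRW G v₀ P X) (t : ℕ) (x : ℕ → V)
    (F : (ℕ → V) → ℝ≥0∞) (hF : ∀ y z : ℕ → V, (∀ s ≤ t + 1, y s = z s) → F y = F z) :
    ∫⁻ ω in cyl X t x, F (fun s => X s ω) ∂P =
      P (cyl X t x) * ∑' w, stepProb G x t w * F (Function.update x (t + 1) w) := by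
  have hU : cyl X t x = ⋃ w, cyl X (t + 1) (Function.update x (t + 1) w) := by
    ext ω
    simp only [Set.mem_iUnion]
    constructor
    · intro hω
      refine ⟨X (t + 1) ω, fun s hs => ?_⟩
      rcases Nat.lt_or_eq_of_le hs with hs | rfl
      · rw [Function.update_of_ne (by omega)]; exact hω s (by omega)
      · rw [Function.update_self]
    · rintro ⟨w, hw⟩ s hs
      have := hw s (by omega)
      rwa [Function.update_of_ne (by omega)] at this
  have hD : Pairwise (Function.onFun Disjoint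
      fun w => cyl X (t + 1) (Function.update x (t + 1) w)) := by
    intro a b hab
    rw [Function.onFun, Set.disjoint_left]
    intro ω ha hb
    have h1 := ha (t + 1) le_rfl
    have h2 := hb (t + 1) le_rfl
    rw [Function.update_self] at h1 h2
    exact hab (h1.symm.trans h2)
  have hc : ∀ w, cyl X t (Function.update x (t + 1) w) = cyl X t x := by
    intro w
    ext ω
    refine forall₂_congr fun s hs => ?_
    rw [Function.update_of_ne (by omega)]
  conv_lhs => rw [hU]
  rw [lintegral_iUnion (fun w => h.measurableSet_cyl _ _) hD, ← ENNReal.tsum_mul_left]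
  refine tsum_congr fun w => ?_
  rw [setLIntegral_congr_fun (h.measurableSet_cyl _ _)
    (g := fun _ => F (Function.update x (t + 1) w)) (fun ω hω => hF _ _ hω),
    setLIntegral_const, h.cyl_succ, hc, Function.update_self,
    stepProb_congr G (x := Function.update x (t + 1) w) (y := x)
      (fun s hs => Function.update_of_ne (by omega) _ _)]
  ring

open Classical in
/-- Supermartingale bound. -/
theorem IsGRW.lintegral_le [Countable V] (h : IsGRW G v₀ P X)
    (Z : ℕ → (ℕ → V) → ℝ≥0∞)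
    (hZ : ∀ (t : ℕ) (y z : ℕ → V), (∀ s ≤ t, y s = z s) → Z t y = Z t z)
    (hs : ∀ (t : ℕ) (x : ℕ → V), Valid G v₀ t x →
      ∑' w, stepProb G x t w * Z (t + 1) (Function.update x (t + 1) w) ≤ Z t x) (t : ℕ) :
    ∫⁻ ω, Z t (fun s => X s ω) ∂P ≤ Z 0 (fun _ => v₀) := by
  haveI := h.1
  induction t with
  | zero =>
    have : ∀ᵐ ω ∂P, Z 0 (fun s => X s ω) = Z 0 (fun _ => v₀) := by
      filter_upwards [h.ae_valid] with ω hω
      refine hZ 0 _ _ fun s hs => ?_
      obtain rfl : s = 0 := by omega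
      exact (hω 0).1
    rw [lintegral_congr_ae this]
    simp
  | succ t ih =>
    refine le_trans ?_ ih
    rw [h.lintegral_eq_tsum t, h.lintegral_eq_tsum t (fun ω => Z t fun s => X s ω)]
    refine ENNReal.tsum_le_tsum fun a => ?_
    rw [h.setLIntegral_cyl_succ t _ (Z (t + 1)) (hZ (t + 1)),
      setLIntegral_congr_fun (h.measurableSet_cyl _ _) (g := fun _ => Z t (ext t a))
        (fun ω hω => hZ t _ _ hω), setLIntegral_const, mul_comm (Z t _)]
    by_cases hv : Valid G v₀ t (ext t a)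
    · exact mul_le_mul_right (hs t _ hv) _
    · rw [h.cyl_eq_zero hv]; simp

end Pool.Agent.Lib.GRW
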