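import Pool.Agent.Lib.GRW.Prob

open MeasureTheory
open scoped ENNReal

namespace Pool.Agent.Lib.GRW

variable {V : Type} {G : SimpleGraph V} [G.LocallyFinite] {v₀ : V}
  {Ω : Type} [MeasurableSpace Ω] {P : Measure Ω} {X : ℕ → Ω → V}

/-- One-step average of a real function of the next position. -/
noncomputable def avg (G : SimpleGraph V) [G.LocallyFinite] (x : ℕ → V) (t : ℕ) (F : V → ℝ) : ℝ :=
  (∑ w ∈ nextSet G x t, F w) / (nextSet G x t).card

theorem IsGRW.measurableSet_det [Countable V] (h : IsGRW G v₀ P X) (t : ℕ) (E : (ℕ → V) → Prop)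
    (hE : ∀ y z : ℕ → V, (∀ s ≤ t, y s = z s) → E y → E z) :
    MeasurableSet {ω | E fun s => X s ω} := by
  have : {ω | E fun s => X s ω} =
      ⋃ a : {a : Fin (t + 1) → V // E (ext t a)}, cyl X t (ext t a.1) := by
    ext ω
    simp only [Set.mem_iUnion]
    constructor
    · intro hω
      have hmem : ω ∈ cyl X t (ext t fun i => X i ω) := fun s hs => by
        simp [ext, min_eq_left hs]
      exact ⟨⟨fun i => X i ω, hE _ _ hmem hω⟩, hmem⟩
    · rintro ⟨a, ha⟩
      exact hE _ _ (fun s hs => (ha s hs).symm) a.2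
  rw [this]
  exact MeasurableSet.iUnion fun a => h.measurableSet_cyl _ _

open Classical in
theorem IsGRW.measure_le_of_super [Countable V] (h : IsGRW G v₀ P X)
    (Z : ℕ → (ℕ → V) → ℝ)
    (hZ : ∀ (t : ℕ) (y z : ℕ → V), (∀ s ≤ t, y s = z s) → Z t y = Z t z)
    (hnn : ∀ (t : ℕ) (x : ℕ → V), Valid G v₀ t x → 0 ≤ Z t x)
    (hs : ∀ (t : ℕ) (x : ℕ → V), Valid G v₀ t x →
      avg G x t (fun w => Z (t + 1) (Function.update x (t + 1) w)) ≤ Z t x)
    (t : ℕ) (d : ℝ) (hd : 0 < d) (E : Set Ω)
    (hE : ∀ ω ∈ E, Valid G v₀ t (fun s => X s ω) → d ≤ Z t (fun s => X s ω)) :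
    P E ≤ ENNReal.ofReal (Z 0 (fun _ => v₀) / d) := by
  have h1 := h.lintegral_le (fun t x => ENNReal.ofReal (Z t x))
    (fun t y z hyz => by simp only [hZ t y z hyz]) (fun t x hx => by
      rw [tsum_stepProb_mul, ← ENNReal.ofReal_sum_of_nonneg
        (fun w hw => hnn _ _ (hx.update hw))]
      refine le_trans (le_of_eq ?_) (ENNReal.ofReal_le_ofReal (hs t x hx))
      unfold avg
      rcases Nat.eq_zero_or_pos (nextSet G x t).card with h0 | h0
      · rw [Finset.card_eq_zero.1 h0]; simp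
      · rw [ENNReal.ofReal_div_of_pos (by exact_mod_cast h0), ENNReal.ofReal_natCast,
          ENNReal.div_eq_inv_mul]) t
  have hm : MeasurableSet {ω | d ≤ Z t fun s => X s ω} :=
    h.measurableSet_det t (fun x => d ≤ Z t x) (fun y z hyz hy => hZ t y z hyz ▸ hy)
  have h2 : P E ≤ P {ω | d ≤ Z t fun s => X s ω} := by
    refine measure_mono_ae ?_
    filter_upwards [h.ae_valid] with ω hω hωE
    exact hE ω hωE (hω t)
  have h3 : ENNReal.ofReal d * P {ω | d ≤ Z t fun s => X s ω} ≤
      ∫⁻ ω, ENNReal.ofReal (Z t fun s => X s ω) ∂P := by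
    rw [← lintegral_indicator_const hm]
    refine lintegral_mono fun ω => ?_
    by_cases hω : ω ∈ {ω | d ≤ Z t fun s => X s ω}
    · rw [Set.indicator_of_mem hω]; exact ENNReal.ofReal_le_ofReal hω
    · rw [Set.indicator_of_notMem hω]; exact zero_le
  refine h2.trans ?_
  rw [ENNReal.ofReal_div_of_pos hd, ENNReal.le_div_iff_mul_le (Or.inl (by simpa using hd))
    (Or.inl ENNReal.ofReal_ne_top), mul_comm]
  exact h3.trans h1

open Classical in
/-- The stopped sum of a potential and accumulated rewards. -/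
noncomputable def stopped (S r : ℕ → (ℕ → V) → ℝ) (St : ℕ → (ℕ → V) → Prop) :
    ℕ → (ℕ → V) → ℝ
  | 0, x => S 0 x
  | t + 1, x => stopped S r St t x + if St t x then 0 else S (t + 1) x - S t x + r t x

theorem stopped_det {S r : ℕ → (ℕ → V) → ℝ} {St : ℕ → (ℕ → V) → Prop}
    (hS : ∀ (t : ℕ) (y z : ℕ → V), (∀ s ≤ t, y s = z s) → S t y = S t z)
    (hr : ∀ (t : ℕ) (y z : ℕ → V), (∀ s ≤ t, y s = z s) → r t y = r t z)
    (hSt : ∀ (t : ℕ) (y z : ℕ → V), (∀ s ≤ t, y s = z s) → (St t y ↔ St t z))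
    (t : ℕ) (y z : ℕ → V) (h : ∀ s ≤ t, y s = z s) :
    stopped S r St t y = stopped S r St t z := by
  induction t with
  | zero => exact hS 0 y z h
  | succ t ih =>
    have h' : ∀ s ≤ t, y s = z s := fun s hs => h s (hs.trans (Nat.le_succ _))
    simp only [stopped]
    rw [ih h', hS (t + 1) y z h, hS t y z h', hr t y z h', hSt t y z h']

/-- Value of the stopped process: there is a time `τ ≤ t` before which the rule has not stopped,
which is `t` or a stopping instant. -/
theorem stopped_eq {S r : ℕ → (ℕ → V) → ℝ} {St : ℕ → (ℕ → V) → Prop} {x : ℕ → V}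
    (hmono : ∀ t, St t x → St (t + 1) x) (t : ℕ) :
    ∃ τ ≤ t, (∀ u < τ, ¬ St u x) ∧ (τ = t ∨ St τ x) ∧ (St τ x → St t x) ∧
      stopped S r St t x = S τ x + ∑ u ∈ Finset.range τ, r u x := by
  induction t with
  | zero => exact ⟨0, le_rfl, by simp, Or.inl rfl, id, by simp [stopped]⟩
  | succ t ih =>
    obtain ⟨τ, h1, h2, h3, h4, h5⟩ := ih
    by_cases hst : St t x
    · refine ⟨τ, h1.trans (Nat.le_succ _), h2, Or.inr ?_, fun _ => hmono t hst, ?_⟩
      · rcases h3 with rfl | h3
        · exact hst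
        · exact h3
      · simp [stopped, hst, h5]
    · have : τ = t := h3.elim id fun h => absurd (h4 h) hst
      subst this
      refine ⟨τ + 1, le_rfl, fun u hu => ?_, Or.inl rfl, id, ?_⟩
      · rcases Nat.lt_succ_iff_lt_or_eq.1 hu with hu | rfl
        · exact h2 u hu
        · exact hst
      · simp only [stopped, hst, if_false, h5, Finset.sum_range_succ]; ring

theorem avg_const_add {x : ℕ → V} {t : ℕ} (hne : (nextSet G x t).Nonempty) (c : ℝ) (F : V → ℝ) :
    avg G x t (fun w => c + F w) = c + avg G x t F := by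
  unfold avg
  have : ((nextSet G x t).card : ℝ) ≠ 0 := by exact_mod_cast hne.card_pos.ne'
  rw [Finset.sum_add_distrib, Finset.sum_const, nsmul_eq_mul]
  field_simp

open Classical in
theorem stopped_super (hG : ∀ v, ∃ w, G.Adj v w)
    {S r : ℕ → (ℕ → V) → ℝ} {St : ℕ → (ℕ → V) → Prop}
    (hS : ∀ (t : ℕ) (y z : ℕ → V), (∀ s ≤ t, y s = z s) → S t y = S t z)
    (hr : ∀ (t : ℕ) (y z : ℕ → V), (∀ s ≤ t, y s = z s) → r t y = r t z)
    (hSt : ∀ (t : ℕ) (y z : ℕ → V), (∀ s ≤ t, y s = z s) → (St t y ↔ St t z))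
    (t : ℕ) (x : ℕ → V)
    (hs : avg G x t (fun w => S (t + 1) (Function.update x (t + 1) w)) + r t x ≤ S t x) (c : ℝ) :
    avg G x t (fun w => c + stopped S r St (t + 1) (Function.update x (t + 1) w)) ≤
      c + stopped S r St t x := by
  have hne := nextSet_nonempty G hG x t
  have hu : ∀ w, ∀ s ≤ t, Function.update x (t + 1) w s = x s := fun w s hs =>
    Function.update_of_ne (by omega) _ _
  by_cases hst : St t x
  · have : (fun w => c + stopped S r St (t + 1) (Function.update x (t + 1) w)) =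
        fun _ => (c + stopped S r St t x) + 0 := by
      funext w
      simp only [stopped]
      rw [stopped_det hS hr hSt t _ _ (hu w), if_pos ((hSt t _ _ (hu w)).2 hst), add_zero, add_zero]
    rw [this, avg_const_add hne]
    simp [avg]
  · have : (fun w => c + stopped S r St (t + 1) (Function.update x (t + 1) w)) =
        fun w => (c + stopped S r St t x - S t x + r t x) +
          S (t + 1) (Function.update x (t + 1) w) := by
      funext w
      simp only [stopped]
      rw [stopped_det hS hr hSt t _ _ (hu w), if_neg (fun h => hst ((hSt t _ _ (hu w)).1 h)),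
        hS t _ _ (hu w), hr t _ _ (hu w)]
      ring
    rw [this, avg_const_add hne]
    linarith

end Pool.Agent.Lib.GRW
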